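import Mathlib

/-!
# A semidistributive lattice of closed sets

`L` is the lattice of the closed subsets of an infinite set of points `xi n` together with seven
further points `b, k, g, c, p, y, m`.
-/

namespace Pool.Agent.Helper75.SD

/-- The points: infinitely many points `xi n` and seven further points. -/
inductive Pt : Type
  | xi (n : ℕ) : Pt
  | b : Pt
  | k : Pt
  | g : Pt
  | c : Pt
  | p : Pt
  | y : Pt
  | m : Pt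

/-- A set of points is closed if it obeys the following rules (`F` is the set of all `xi n`):
each `xi n` implies `b`; `p` implies `F`; `m` implies `p`; `g` implies `k`;
`{b, g}` implies `F`; `{b, y}` implies `F`; `F ∪ {c}` implies `p`; `{p, y}` implies `m`;
`{k, m}` implies `g`; `{k, y}` implies `g`. -/
structure IsClosedSet (X : Set Pt) : Prop where
  xi_b : ∀ n, Pt.xi n ∈ X → Pt.b ∈ X
  p_xi : Pt.p ∈ X → ∀ n, Pt.xi n ∈ X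
  m_p : Pt.m ∈ X → Pt.p ∈ X
  g_k : Pt.g ∈ X → Pt.k ∈ X
  bg_xi : Pt.b ∈ X → Pt.g ∈ X → ∀ n, Pt.xi n ∈ X
  by_xi : Pt.b ∈ X → Pt.y ∈ X → ∀ n, Pt.xi n ∈ X
  xic_p : (∀ n, Pt.xi n ∈ X) → Pt.c ∈ X → Pt.p ∈ X
  py_m : Pt.p ∈ X → Pt.y ∈ X → Pt.m ∈ X
  km_g : Pt.k ∈ X → Pt.m ∈ X → Pt.g ∈ X
  ky_g : Pt.k ∈ X → Pt.y ∈ X → Pt.g ∈ X

/-- The lattice of closed sets. -/
def L : Type := {X : Set Pt // IsClosedSet X}

instance : Membership Pt L := ⟨fun X q => q ∈ X.1⟩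

theorem L.ext {X Y : L} (h : ∀ q, q ∈ X ↔ q ∈ Y) : X = Y := Subtype.ext (Set.ext h)

section
variable (X Y : L)

/-- `g` lies in the join. -/
def gJ : Prop :=
  Pt.g ∈ X ∨ Pt.g ∈ Y ∨ ((Pt.k ∈ X ∨ Pt.k ∈ Y) ∧ (Pt.y ∈ X ∨ Pt.y ∈ Y ∨ Pt.m ∈ X ∨ Pt.m ∈ Y))

/-- All points `xi n` lie in the join. -/
def fJ : Prop :=
  (∀ n, Pt.xi n ∈ X ∨ Pt.xi n ∈ Y) ∨ ((Pt.b ∈ X ∨ Pt.b ∈ Y) ∧ (gJ X Y ∨ Pt.y ∈ X ∨ Pt.y ∈ Y))

/-- `p` lies in the join. -/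
def pJ : Prop := Pt.p ∈ X ∨ Pt.p ∈ Y ∨ (fJ X Y ∧ (Pt.c ∈ X ∨ Pt.c ∈ Y))

/-- `m` lies in the join. -/
def mJ : Prop := Pt.m ∈ X ∨ Pt.m ∈ Y ∨ (pJ X Y ∧ (Pt.y ∈ X ∨ Pt.y ∈ Y))

/-- The closure of the union. -/
def joinSet : Set Pt := {q | match q with
  | Pt.xi n => Pt.xi n ∈ X ∨ Pt.xi n ∈ Y ∨ fJ X Y
  | Pt.b => Pt.b ∈ X ∨ Pt.b ∈ Y
  | Pt.k => Pt.k ∈ X ∨ Pt.k ∈ Y
  | Pt.g => gJ X Y
  | Pt.c => Pt.c ∈ X ∨ Pt.c ∈ Y
  | Pt.p => pJ X Y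
  | Pt.y => Pt.y ∈ X ∨ Pt.y ∈ Y
  | Pt.m => mJ X Y}

end

theorem gJ_k {X Y : L} (h : gJ X Y) : Pt.k ∈ X ∨ Pt.k ∈ Y := by
  rcases h with h | h | h
  · exact Or.inl (X.2.g_k h)
  · exact Or.inr (Y.2.g_k h)
  · exact h.1

theorem fJ_b {X Y : L} (h : fJ X Y) : Pt.b ∈ X ∨ Pt.b ∈ Y := by
  rcases h with h | h
  · rcases h 0 with h | h
    · exact Or.inl (X.2.xi_b 0 h)
    · exact Or.inr (Y.2.xi_b 0 h)
  · exact h.1

theorem pJ_fJ {X Y : L} (h : pJ X Y) : fJ X Y := by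
  rcases h with h | h | h
  · exact Or.inl fun n => Or.inl (X.2.p_xi h n)
  · exact Or.inl fun n => Or.inr (Y.2.p_xi h n)
  · exact h.1

theorem mJ_pJ {X Y : L} (h : mJ X Y) : pJ X Y := by
  rcases h with h | h | h
  · exact Or.inl (X.2.m_p h)
  · exact Or.inr (Or.inl (Y.2.m_p h))
  · exact h.1

theorem km_gJ {X Y : L} (hk : Pt.k ∈ X ∨ Pt.k ∈ Y) (hm : mJ X Y) : gJ X Y := by
  rcases hm with h | h | h
  · exact Or.inr (Or.inr ⟨hk, Or.inr (Or.inr (Or.inl h))⟩)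
  · exact Or.inr (Or.inr ⟨hk, Or.inr (Or.inr (Or.inr h))⟩)
  · rcases h.2 with h | h
    · exact Or.inr (Or.inr ⟨hk, Or.inl h⟩)
    · exact Or.inr (Or.inr ⟨hk, Or.inr (Or.inl h)⟩)

theorem joinSet_closed (X Y : L) : IsClosedSet (joinSet X Y) where
  xi_b := by
    intro n h
    rcases h with h | h | h
    · exact Or.inl (X.2.xi_b n h)
    · exact Or.inr (Y.2.xi_b n h)
    · exact fJ_b h
  p_xi := fun h _ => Or.inr (Or.inr (pJ_fJ h))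
  m_p := mJ_pJ
  g_k := gJ_k
  bg_xi := fun hb hg _ => Or.inr (Or.inr (Or.inr ⟨hb, Or.inl hg⟩))
  by_xi := fun hb hy _ => Or.inr (Or.inr (Or.inr ⟨hb, Or.inr hy⟩))
  xic_p := by
    intro h hc
    refine Or.inr (Or.inr ⟨?_, hc⟩)
    by_cases hf : fJ X Y
    · exact hf
    · refine Or.inl fun n => ?_
      rcases h n with h | h | h
      · exact Or.inl h
      · exact Or.inr h
      · exact absurd h hf
  py_m := fun hp hy => Or.inr (Or.inr ⟨hp, hy⟩)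
  km_g := km_gJ
  ky_g := by
    intro hk hy
    refine Or.inr (Or.inr ⟨hk, ?_⟩)
    rcases hy with h | h
    · exact Or.inl h
    · exact Or.inr (Or.inl h)

theorem joinSet_min {X Y : L} {Z : Set Pt} (hZ : IsClosedSet Z) (hX : X.1 ⊆ Z) (hY : Y.1 ⊆ Z) :
    joinSet X Y ⊆ Z := by
  have two : ∀ q, (q ∈ X ∨ q ∈ Y) → q ∈ Z := fun q h => h.elim (fun h => hX h) (fun h => hY h)
  have hg : gJ X Y → Pt.g ∈ Z := by
    rintro (h | h | ⟨h1, h2⟩)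
    · exact hX h
    · exact hY h
    · rcases h2 with h | h | h | h
      · exact hZ.ky_g (two _ h1) (hX h)
      · exact hZ.ky_g (two _ h1) (hY h)
      · exact hZ.km_g (two _ h1) (hX h)
      · exact hZ.km_g (two _ h1) (hY h)
  have hf : fJ X Y → ∀ n, Pt.xi n ∈ Z := by
    rintro (h | ⟨h1, h2⟩)
    · exact fun n => two _ (h n)
    · rcases h2 with h | h
      · exact hZ.bg_xi (two _ h1) (hg h)
      · exact hZ.by_xi (two _ h1) (two _ h)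
  have hp : pJ X Y → Pt.p ∈ Z := by
    rintro (h | h | ⟨h1, h2⟩)
    · exact hX h
    · exact hY h
    · exact hZ.xic_p (hf h1) (two _ h2)
  intro q hq
  cases q with
  | xi n =>
    rcases hq with h | h | h
    · exact hX h
    · exact hY h
    · exact hf h n
  | b => exact two _ hq
  | k => exact two _ hq
  | g => exact hg hq
  | c => exact two _ hq
  | p => exact hp hq
  | y => exact two _ hq
  | m =>
    rcases hq with h | h | ⟨h1, h2⟩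
    · exact hX h
    · exact hY h
    · exact hZ.py_m (hp h1) (two _ h2)

theorem subset_joinSet_left (X Y : L) : X.1 ⊆ joinSet X Y := by
  intro q hq
  cases q with
  | xi n => exact Or.inl hq
  | b => exact Or.inl hq
  | k => exact Or.inl hq
  | g => exact Or.inl hq
  | c => exact Or.inl hq
  | p => exact Or.inl hq
  | y => exact Or.inl hq
  | m => exact Or.inl hq

theorem subset_joinSet_right (X Y : L) : Y.1 ⊆ joinSet X Y := by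
  intro q hq
  cases q with
  | xi n => exact Or.inr (Or.inl hq)
  | b => exact Or.inr hq
  | k => exact Or.inr hq
  | g => exact Or.inr (Or.inl hq)
  | c => exact Or.inr hq
  | p => exact Or.inr (Or.inl hq)
  | y => exact Or.inr hq
  | m => exact Or.inr (Or.inl hq)

theorem inter_closed (X Y : L) : IsClosedSet (X.1 ∩ Y.1) where
  xi_b := fun n h => ⟨X.2.xi_b n h.1, Y.2.xi_b n h.2⟩
  p_xi := fun h n => ⟨X.2.p_xi h.1 n, Y.2.p_xi h.2 n⟩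
  m_p := fun h => ⟨X.2.m_p h.1, Y.2.m_p h.2⟩
  g_k := fun h => ⟨X.2.g_k h.1, Y.2.g_k h.2⟩
  bg_xi := fun h h' n => ⟨X.2.bg_xi h.1 h'.1 n, Y.2.bg_xi h.2 h'.2 n⟩
  by_xi := fun h h' n => ⟨X.2.by_xi h.1 h'.1 n, Y.2.by_xi h.2 h'.2 n⟩
  xic_p := fun h h' => ⟨X.2.xic_p (fun n => (h n).1) h'.1, Y.2.xic_p (fun n => (h n).2) h'.2⟩
  py_m := fun h h' => ⟨X.2.py_m h.1 h'.1, Y.2.py_m h.2 h'.2⟩
  km_g := fun h h' => ⟨X.2.km_g h.1 h'.1, Y.2.km_g h.2 h'.2⟩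
  ky_g := fun h h' => ⟨X.2.ky_g h.1 h'.1, Y.2.ky_g h.2 h'.2⟩

/-- The lattice structure: the order is inclusion, meets are intersections and joins are closures
of unions. -/
instance : Lattice L where
  le X Y := X.1 ⊆ Y.1
  le_refl X := Set.Subset.refl X.1
  le_trans _ _ _ h h' := Set.Subset.trans h h'
  le_antisymm _ _ h h' := Subtype.ext (Set.Subset.antisymm h h')
  sup X Y := ⟨joinSet X Y, joinSet_closed X Y⟩
  inf X Y := ⟨X.1 ∩ Y.1, inter_closed X Y⟩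
  le_sup_left := subset_joinSet_left
  le_sup_right := subset_joinSet_right
  sup_le X Y Z h h' := joinSet_min Z.2 h h'
  inf_le_left X Y := Set.inter_subset_left
  inf_le_right X Y := Set.inter_subset_right
  le_inf _ _ _ h h' := Set.subset_inter h h'

theorem le_iff {X Y : L} : X ≤ Y ↔ ∀ q, q ∈ X → q ∈ Y := Iff.rfl

theorem mem_inf {X Y : L} {q : Pt} : q ∈ X ⊓ Y ↔ q ∈ X ∧ q ∈ Y := Iff.rfl

theorem mem_sup_b {X Y : L} : Pt.b ∈ X ⊔ Y ↔ Pt.b ∈ X ∨ Pt.b ∈ Y := Iff.rfl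

theorem mem_sup_k {X Y : L} : Pt.k ∈ X ⊔ Y ↔ Pt.k ∈ X ∨ Pt.k ∈ Y := Iff.rfl

theorem mem_sup_c {X Y : L} : Pt.c ∈ X ⊔ Y ↔ Pt.c ∈ X ∨ Pt.c ∈ Y := Iff.rfl

theorem mem_sup_y {X Y : L} : Pt.y ∈ X ⊔ Y ↔ Pt.y ∈ X ∨ Pt.y ∈ Y := Iff.rfl

theorem mem_sup_g {X Y : L} : Pt.g ∈ X ⊔ Y ↔ gJ X Y := Iff.rfl

theorem mem_sup_xi {X Y : L} {n : ℕ} :
    Pt.xi n ∈ X ⊔ Y ↔ Pt.xi n ∈ X ∨ Pt.xi n ∈ Y ∨ fJ X Y := Iff.rfl

theorem mem_sup_p {X Y : L} : Pt.p ∈ X ⊔ Y ↔ pJ X Y := Iff.rfl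

theorem mem_sup_m {X Y : L} : Pt.m ∈ X ⊔ Y ↔ mJ X Y := Iff.rfl

/-- How `g` gets into a join. -/
theorem g_sup {X Y : L} (h : Pt.g ∈ X ⊔ Y) : Pt.g ∈ X ∨ Pt.g ∈ Y ∨
    ((Pt.k ∈ X ∨ Pt.k ∈ Y) ∧ ((Pt.y ∈ X ∨ Pt.y ∈ Y) ∨ (Pt.m ∈ X ∨ Pt.m ∈ Y))) := by
  rcases h with h | h | ⟨h1, h2⟩
  · exact Or.inl h
  · exact Or.inr (Or.inl h)
  · refine Or.inr (Or.inr ⟨h1, ?_⟩)
    tauto

/-- How `xi n` gets into a join. -/
theorem xi_sup {X Y : L} {n : ℕ} (h : Pt.xi n ∈ X ⊔ Y) : Pt.xi n ∈ X ∨ Pt.xi n ∈ Y ∨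
    (∀ j, Pt.xi j ∈ X ∨ Pt.xi j ∈ Y) ∨
    ((Pt.b ∈ X ∨ Pt.b ∈ Y) ∧ (Pt.g ∈ X ⊔ Y ∨ (Pt.y ∈ X ∨ Pt.y ∈ Y))) := by
  rcases h with h | h | h | h
  · exact Or.inl h
  · exact Or.inr (Or.inl h)
  · exact Or.inr (Or.inr (Or.inl h))
  · exact Or.inr (Or.inr (Or.inr h))

/-- How `p` gets into a join. -/
theorem p_sup {X Y : L} (h : Pt.p ∈ X ⊔ Y) : Pt.p ∈ X ∨ Pt.p ∈ Y ∨
    ((Pt.c ∈ X ∨ Pt.c ∈ Y) ∧ ((∀ j, Pt.xi j ∈ X ∨ Pt.xi j ∈ Y) ∨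
    ((Pt.b ∈ X ∨ Pt.b ∈ Y) ∧ (Pt.g ∈ X ⊔ Y ∨ (Pt.y ∈ X ∨ Pt.y ∈ Y))))) := by
  rcases h with h | h | ⟨h1, h2⟩
  · exact Or.inl h
  · exact Or.inr (Or.inl h)
  · exact Or.inr (Or.inr ⟨h2, h1⟩)

/-- How `m` gets into a join. -/
theorem m_sup {X Y : L} (h : Pt.m ∈ X ⊔ Y) : Pt.m ∈ X ∨ Pt.m ∈ Y ∨
    ((Pt.y ∈ X ∨ Pt.y ∈ Y) ∧ Pt.p ∈ X ⊔ Y) := by
  rcases h with h | h | ⟨h1, h2⟩
  · exact Or.inl h
  · exact Or.inr (Or.inl h)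
  · exact Or.inr (Or.inr ⟨h2, h1⟩)

end Pool.Agent.Helper75.SD
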