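import Pool.Agent.Helper75.SD.Basic

/-!
# The semidistributive laws with four steps
-/

namespace Pool.Agent.Helper75.SD

section terms

variable {α : Type*} [Max α] [Min α]

/-- `y_0 = y`, `y_{n+1} = y ∧ (x ∨ z_n)`, where `z_n` is the same with `y` and `z` exchanged. -/
def dn (x : α) : α → α → ℕ → α
  | y, _, 0 => y
  | y, z, n + 1 => y ⊓ (x ⊔ dn x z y n)

/-- `y_0 = y`, `y_{n+1} = y ∨ (x ∧ z_n)`, where `z_n` is the same with `y` and `z` exchanged. -/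
def up (x : α) : α → α → ℕ → α
  | y, _, 0 => y
  | y, z, n + 1 => y ⊔ (x ⊓ up x z y n)

end terms

/-- The points which no rule adds to a union of two closed sets. -/
def IsBase (q : Pt) : Prop := q = Pt.b ∨ q = Pt.k ∨ q = Pt.c ∨ q = Pt.y

theorem IsBase.b : IsBase Pt.b := Or.inl rfl
theorem IsBase.k : IsBase Pt.k := Or.inr (Or.inl rfl)
theorem IsBase.c : IsBase Pt.c := Or.inr (Or.inr (Or.inl rfl))
theorem IsBase.y : IsBase Pt.y := Or.inr (Or.inr (Or.inr rfl))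

theorem mem_sup_base {X Y : L} {q : Pt} (hq : IsBase q) : q ∈ X ⊔ Y ↔ q ∈ X ∨ q ∈ Y := by
  rcases hq with rfl | rfl | rfl | rfl <;> exact Iff.rfl

theorem mem_sup_left {X Y : L} {q : Pt} (h : q ∈ X) : q ∈ X ⊔ Y :=
  le_iff.1 (le_sup_left : X ≤ X ⊔ Y) q h

theorem mem_sup_right {X Y : L} {q : Pt} (h : q ∈ Y) : q ∈ X ⊔ Y :=
  le_iff.1 (le_sup_right : Y ≤ X ⊔ Y) q h

theorem dn_le {α : Type*} [Lattice α] (x y z : α) (n : ℕ) : dn x y z n ≤ y := by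
  cases n with
  | zero => exact le_rfl
  | succ n => exact inf_le_left

theorem le_up {α : Type*} [Lattice α] (x y z : α) (n : ℕ) : y ≤ up x y z n := by
  cases n with
  | zero => exact le_rfl
  | succ n => exact le_sup_left

/-! ### Joins -/

section join

variable {x y z A : L}

theorem mem_R_left {q : Pt} (h : q ∈ x) : q ∈ x ⊔ (y ⊓ z) := mem_sup_left h

theorem mem_R_right {q : Pt} (h : q ∈ y) (h' : q ∈ z) : q ∈ x ⊔ (y ⊓ z) :=
  mem_sup_right (mem_inf.2 ⟨h, h'⟩)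

theorem j_base (hA : A ≤ z) {q : Pt} (hq : IsBase q) (h : q ∈ y ⊓ (x ⊔ A)) :
    q ∈ x ⊔ (y ⊓ z) := by
  rcases (mem_sup_base hq).1 (mem_inf.1 h).2 with h1 | h1
  · exact mem_R_left h1
  · exact mem_R_right (mem_inf.1 h).1 (le_iff.1 hA q h1)

theorem j_sup (hb : ∀ q, IsBase q → q ∈ A → q ∈ x ⊔ (y ⊓ z)) {q : Pt} (hq : IsBase q)
    (h : q ∈ x ∨ q ∈ A) : q ∈ x ⊔ (y ⊓ z) := h.elim mem_R_left (hb q hq)

theorem j_m (hA : A ≤ z) (hb : ∀ q, IsBase q → q ∈ A → q ∈ x ⊔ (y ⊓ z))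
    (h : Pt.m ∈ y ⊓ (x ⊔ A)) : Pt.m ∈ x ⊔ (y ⊓ z) := by
  obtain ⟨hy, h⟩ := mem_inf.1 h
  rcases m_sup h with h | h | ⟨h1, h2⟩
  · exact mem_R_left h
  · exact mem_R_right hy (le_iff.1 hA _ h)
  · have hyR : Pt.y ∈ x ⊔ (y ⊓ z) := j_sup hb IsBase.y h1
    have hbR : Pt.b ∈ x ⊔ (y ⊓ z) :=
      j_sup hb IsBase.b ((mem_sup_base IsBase.b).1 ((x ⊔ A).2.xi_b 0 ((x ⊔ A).2.p_xi h2 0)))
    have hF := (x ⊔ (y ⊓ z)).2.by_xi hbR hyR
    refine (x ⊔ (y ⊓ z)).2.py_m ?_ hyR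
    rcases p_sup h2 with h | h | ⟨h3, _⟩
    · exact mem_R_left h
    · exact mem_R_right (y.2.m_p hy) (le_iff.1 hA _ h)
    · exact (x ⊔ (y ⊓ z)).2.xic_p hF (j_sup hb IsBase.c h3)

theorem j_g (hA : A ≤ z) (hb : ∀ q, IsBase q → q ∈ A → q ∈ x ⊔ (y ⊓ z))
    (hm : Pt.m ∈ A → Pt.m ∈ x ⊔ (y ⊓ z))
    (h : Pt.g ∈ y ⊓ (x ⊔ A)) : Pt.g ∈ x ⊔ (y ⊓ z) := by
  obtain ⟨hy, h⟩ := mem_inf.1 h
  rcases g_sup h with h | h | ⟨h1, h2⟩
  · exact mem_R_left h
  · exact mem_R_right hy (le_iff.1 hA _ h)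
  · have hkR : Pt.k ∈ x ⊔ (y ⊓ z) := j_sup hb IsBase.k h1
    rcases h2 with h2 | h2
    · exact (x ⊔ (y ⊓ z)).2.ky_g hkR (j_sup hb IsBase.y h2)
    · exact (x ⊔ (y ⊓ z)).2.km_g hkR (h2.elim mem_R_left hm)

theorem j_F (hb : ∀ q, IsBase q → q ∈ A → q ∈ x ⊔ (y ⊓ z))
    (hm : Pt.m ∈ A → Pt.m ∈ x ⊔ (y ⊓ z)) (hg : Pt.g ∈ A → Pt.g ∈ x ⊔ (y ⊓ z))
    (h : (Pt.b ∈ x ∨ Pt.b ∈ A) ∧ (Pt.g ∈ x ⊔ A ∨ (Pt.y ∈ x ∨ Pt.y ∈ A))) :
    ∀ n, Pt.xi n ∈ x ⊔ (y ⊓ z) := by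
  have hbR : Pt.b ∈ x ⊔ (y ⊓ z) := j_sup hb IsBase.b h.1
  rcases h.2 with h2 | h2
  · refine (x ⊔ (y ⊓ z)).2.bg_xi hbR ?_
    rcases g_sup h2 with h | h | ⟨h1, h2⟩
    · exact mem_R_left h
    · exact hg h
    · have hkR : Pt.k ∈ x ⊔ (y ⊓ z) := j_sup hb IsBase.k h1
      rcases h2 with h2 | h2
      · exact (x ⊔ (y ⊓ z)).2.ky_g hkR (j_sup hb IsBase.y h2)
      · exact (x ⊔ (y ⊓ z)).2.km_g hkR (h2.elim mem_R_left hm)
  · exact (x ⊔ (y ⊓ z)).2.by_xi hbR (j_sup hb IsBase.y h2)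

theorem j_xi (hA : A ≤ z) (hb : ∀ q, IsBase q → q ∈ A → q ∈ x ⊔ (y ⊓ z))
    (hm : Pt.m ∈ A → Pt.m ∈ x ⊔ (y ⊓ z)) (hg : Pt.g ∈ A → Pt.g ∈ x ⊔ (y ⊓ z)) {n : ℕ}
    (h : Pt.xi n ∈ y ⊓ (x ⊔ A)) : Pt.xi n ∈ x ⊔ (y ⊓ z) := by
  obtain ⟨hy, h⟩ := mem_inf.1 h
  rcases xi_sup h with h | h | h | h
  · exact mem_R_left h
  · exact mem_R_right hy (le_iff.1 hA _ h)
  · rcases h n with h | h
    · exact mem_R_left h
    · exact mem_R_right hy (le_iff.1 hA _ h)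
  · exact j_F hb hm hg h n

theorem j_p (hA : A ≤ z) (hb : ∀ q, IsBase q → q ∈ A → q ∈ x ⊔ (y ⊓ z))
    (hm : Pt.m ∈ A → Pt.m ∈ x ⊔ (y ⊓ z)) (hg : Pt.g ∈ A → Pt.g ∈ x ⊔ (y ⊓ z))
    (h : Pt.p ∈ y ⊓ (x ⊔ A)) : Pt.p ∈ x ⊔ (y ⊓ z) := by
  obtain ⟨hy, h⟩ := mem_inf.1 h
  rcases p_sup h with h | h | ⟨h1, h2⟩
  · exact mem_R_left h
  · exact mem_R_right hy (le_iff.1 hA _ h)
  · refine (x ⊔ (y ⊓ z)).2.xic_p ?_ (j_sup hb IsBase.c h1)
    rcases h2 with h2 | h2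
    · intro n
      rcases h2 n with h | h
      · exact mem_R_left h
      · exact mem_R_right (y.2.p_xi hy n) (le_iff.1 hA _ h)
    · exact j_F hb hm hg h2

end join

theorem dn_base (x y z : L) (n : ℕ) (q : Pt) (hq : IsBase q) (h : q ∈ dn x y z (n + 1)) :
    q ∈ x ⊔ (y ⊓ z) := j_base (dn_le x z y n) hq h

theorem dn_m (x y z : L) (n : ℕ) (h : Pt.m ∈ dn x y z (n + 2)) : Pt.m ∈ x ⊔ (y ⊓ z) :=
  j_m (dn_le x z y (n + 1)) (fun q hq h => by
    rw [inf_comm y z]; exact dn_base x z y n q hq h) h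

theorem dn_g (x y z : L) (n : ℕ) (h : Pt.g ∈ dn x y z (n + 3)) : Pt.g ∈ x ⊔ (y ⊓ z) :=
  j_g (dn_le x z y (n + 2)) (fun q hq h => by
    rw [inf_comm y z]; exact dn_base x z y (n + 1) q hq h)
    (fun h => by rw [inf_comm y z]; exact dn_m x z y n h) h

/-- The join semidistributive law with four steps. -/
theorem sdj (x y z : L) : x ⊔ dn x y z 4 = x ⊔ (y ⊓ z) := by
  have hb : ∀ q, IsBase q → q ∈ dn x z y 3 → q ∈ x ⊔ (y ⊓ z) := fun q hq h => by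
    rw [inf_comm y z]; exact dn_base x z y 2 q hq h
  have hm : Pt.m ∈ dn x z y 3 → Pt.m ∈ x ⊔ (y ⊓ z) := fun h => by
    rw [inf_comm y z]; exact dn_m x z y 1 h
  have hg : Pt.g ∈ dn x z y 3 → Pt.g ∈ x ⊔ (y ⊓ z) := fun h => by
    rw [inf_comm y z]; exact dn_g x z y 0 h
  have hA := dn_le x z y 3
  apply le_antisymm
  · refine sup_le le_sup_left (le_iff.2 fun q h => ?_)
    change q ∈ y ⊓ (x ⊔ dn x z y 3) at h
    cases q with
    | xi n => exact j_xi hA hb hm hg h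
    | b => exact j_base hA IsBase.b h
    | k => exact j_base hA IsBase.k h
    | g => exact j_g hA hb hm h
    | c => exact j_base hA IsBase.c h
    | p => exact j_p hA hb hm hg h
    | y => exact j_base hA IsBase.y h
    | m => exact j_m hA hb h
  · refine sup_le le_sup_left (le_trans ?_ le_sup_right)
    have key : ∀ n (y z : L), y ⊓ z ≤ dn x y z n := by
      intro n
      induction n with
      | zero => exact fun y z => inf_le_left
      | succ n ih =>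
        intro y z
        exact le_inf inf_le_left (le_trans (le_trans (le_of_eq (inf_comm y z)) (ih z y))
          le_sup_right)
    exact key 4 y z

/-! ### Meets -/

theorem up_mono (x : L) : ∀ (n : ℕ) (y z : L), up x y z n ≤ up x y z (n + 1) := by
  intro n
  induction n with
  | zero => exact fun y z => le_sup_left
  | succ n ih =>
    intro y z
    exact sup_le_sup_left (inf_le_inf_left x (ih z y)) y

theorem up_le (x : L) : ∀ (n : ℕ) (y z : L), up x y z n ≤ y ⊔ z := by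
  intro n
  induction n with
  | zero => exact fun y z => le_sup_left
  | succ n ih =>
    intro y z
    exact sup_le le_sup_left (le_trans inf_le_right (le_trans (ih z y) (le_of_eq (sup_comm z y))))

section meet

variable {x y z : L}

theorem up_step {n : ℕ} {q : Pt} (hx : q ∈ x) (h : q ∈ up x y z n ∨ q ∈ up x z y n) :
    q ∈ up x y z (n + 1) := by
  rcases h with h | h
  · exact le_iff.1 (up_mono x n y z) q h
  · exact mem_sup_right (mem_inf.2 ⟨hx, h⟩)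

theorem up_base {q : Pt} (hq : IsBase q) (hx : q ∈ x) (h : q ∈ y ⊔ z) : q ∈ up x y z 1 :=
  up_step (n := 0) hx ((mem_sup_base hq).1 h)

theorem up_base' {q : Pt} (hq : IsBase q) (hx : q ∈ x) (h : q ∈ y ⊔ z) : q ∈ up x z y 1 :=
  up_step (n := 0) hx ((mem_sup_base hq).1 h).symm

theorem mem_up {q : Pt} {n : ℕ} (h : q ∈ y) : q ∈ up x y z n := le_iff.1 (le_up x y z n) q h

theorem up_g (hx : Pt.g ∈ x) (h : Pt.g ∈ y ⊔ z) : Pt.g ∈ up x y z 1 ∨ Pt.g ∈ up x z y 1 := by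
  rcases g_sup h with h | h | ⟨h1, h2⟩
  · exact Or.inl (mem_up h)
  · exact Or.inr (mem_up h)
  · have hk := up_base (x := x) (y := y) (z := z) IsBase.k (x.2.g_k hx)
      ((mem_sup_base IsBase.k).2 h1)
    have hk' := up_base' (x := x) (y := y) (z := z) IsBase.k (x.2.g_k hx)
      ((mem_sup_base IsBase.k).2 h1)
    rcases h2 with (h | h) | (h | h)
    · exact Or.inl ((up x y z 1).2.ky_g hk (mem_up h))
    · exact Or.inr ((up x z y 1).2.ky_g hk' (mem_up h))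
    · exact Or.inl ((up x y z 1).2.km_g hk (mem_up h))
    · exact Or.inr ((up x z y 1).2.km_g hk' (mem_up h))

theorem up_xi {n : ℕ} (hx : Pt.xi n ∈ x) (h : Pt.xi n ∈ y ⊔ z) :
    Pt.xi n ∈ up x y z 1 ∨ Pt.xi n ∈ up x z y 1 := by
  have hbj := (y ⊔ z).2.xi_b n h
  have hb := up_base (x := x) (y := y) (z := z) IsBase.b (x.2.xi_b n hx) hbj
  have hb' := up_base' (x := x) (y := y) (z := z) IsBase.b (x.2.xi_b n hx) hbj
  have one : ∀ {m : ℕ}, (Pt.xi m ∈ y ∨ Pt.xi m ∈ z) →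
      Pt.xi m ∈ up x y z 1 ∨ Pt.xi m ∈ up x z y 1 := fun h => h.imp mem_up mem_up
  rcases xi_sup h with h | h | h | ⟨h1, h2⟩
  · exact one (Or.inl h)
  · exact one (Or.inr h)
  · exact one (h n)
  · rcases h2 with h | (h | h)
    · rcases g_sup h with h | h | ⟨_, (h | h) | (h | h)⟩
      · exact Or.inl ((up x y z 1).2.bg_xi hb (mem_up h) n)
      · exact Or.inr ((up x z y 1).2.bg_xi hb' (mem_up h) n)
      · exact Or.inl ((up x y z 1).2.by_xi hb (mem_up h) n)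
      · exact Or.inr ((up x z y 1).2.by_xi hb' (mem_up h) n)
      · exact Or.inl (mem_up (y.2.p_xi (y.2.m_p h) n))
      · exact Or.inr (mem_up (z.2.p_xi (z.2.m_p h) n))
    · exact Or.inl ((up x y z 1).2.by_xi hb (mem_up h) n)
    · exact Or.inr ((up x z y 1).2.by_xi hb' (mem_up h) n)

theorem up_p (hx : Pt.p ∈ x) (h : Pt.p ∈ y ⊔ z) : Pt.p ∈ up x y z 2 ∨ Pt.p ∈ up x z y 2 := by
  rcases p_sup h with h' | h' | ⟨h1, _⟩
  · exact Or.inl (mem_up h')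
  · exact Or.inr (mem_up h')
  · have hF : ∀ n, Pt.xi n ∈ up x y z 2 := fun n =>
      up_step (x.2.p_xi hx n) (up_xi (x.2.p_xi hx n) ((y ⊔ z).2.p_xi h n))
    have hF' : ∀ n, Pt.xi n ∈ up x z y 2 := fun n =>
      up_step (x.2.p_xi hx n) (up_xi (x.2.p_xi hx n) ((y ⊔ z).2.p_xi h n)).symm
    rcases h1 with h1 | h1
    · exact Or.inl ((up x y z 2).2.xic_p hF (mem_up h1))
    · exact Or.inr ((up x z y 2).2.xic_p hF' (mem_up h1))

theorem up_m (hx : Pt.m ∈ x) (h : Pt.m ∈ y ⊔ z) : Pt.m ∈ up x y z 3 ∨ Pt.m ∈ up x z y 3 := by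
  rcases m_sup h with h' | h' | ⟨h1, h2⟩
  · exact Or.inl (mem_up h')
  · exact Or.inr (mem_up h')
  · have hp := up_step (x.2.m_p hx) (up_p (x.2.m_p hx) h2)
    have hp' := up_step (x.2.m_p hx) (up_p (x.2.m_p hx) h2).symm
    rcases h1 with h1 | h1
    · exact Or.inl ((up x y z 3).2.py_m hp (mem_up h1))
    · exact Or.inr ((up x z y 3).2.py_m hp' (mem_up h1))

end meet

/-- The meet semidistributive law with four steps. -/
theorem sdm (x y z : L) : x ⊓ up x y z 4 = x ⊓ (y ⊔ z) := by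
  apply le_antisymm
  · exact le_inf inf_le_left (le_trans inf_le_right (up_le x 4 y z))
  · refine le_inf inf_le_left (le_iff.2 fun q h => ?_)
    obtain ⟨hx, h⟩ := mem_inf.1 h
    have m1 : ∀ {q : Pt}, q ∈ up x y z 1 → q ∈ up x y z 4 := fun {q} h =>
      le_iff.1 (le_trans (up_mono x 1 y z) (le_trans (up_mono x 2 y z) (up_mono x 3 y z))) q h
    have m2 : ∀ {q : Pt}, q ∈ up x y z 2 → q ∈ up x y z 4 := fun {q} h =>
      le_iff.1 (le_trans (up_mono x 2 y z) (up_mono x 3 y z)) q h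
    have m3 : ∀ {q : Pt}, q ∈ up x y z 3 → q ∈ up x y z 4 := fun {q} h =>
      le_iff.1 (up_mono x 3 y z) q h
    cases q with
    | xi n => exact m2 (up_step hx (up_xi hx h))
    | b => exact m1 (up_base IsBase.b hx h)
    | k => exact m1 (up_base IsBase.k hx h)
    | g => exact m2 (up_step hx (up_g hx h))
    | c => exact m1 (up_base IsBase.c hx h)
    | p => exact m3 (up_step hx (up_p hx h))
    | y => exact m1 (up_base IsBase.y hx h)
    | m => exact up_step hx (up_m hx h)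

end Pool.Agent.Helper75.SD
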