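import Pool.Agent.Helper75.SD.Semi

/-!
# The splitting identity
-/

namespace Pool.Agent.Helper75.SD

section terms

variable {α : Type*} [Max α] [Min α]

/-- Upper version of `p` over `w = u ∨ v`. -/
def tP (u v c p : α) : α := (u ⊔ v) ⊔ (p ⊓ (c ⊔ (u ⊔ v)))

/-- Lower version of `p` over `w = u ∨ v`. -/
def tQ (u v c p : α) : α := (u ⊔ v) ⊔ ((p ⊓ (c ⊔ u)) ⊔ (p ⊓ (c ⊔ v)))

/-- The element above `b` which cuts `u` and `v`. -/
def tT (P b k g y m : α) : α := b ⊔ (k ⊔ (g ⊓ (k ⊔ (m ⊓ (P ⊔ y)))))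

/-- The common part of the new `u` and the new `v`. -/
def tR (u v b k g c p y m : α) : α :=
  (u ⊓ v) ⊔ ((u ⊓ tT (tQ u v c p) b k g y m) ⊔ (v ⊓ tT (tQ u v c p) b k g y m))

/-- The new `u`. -/
def tU (u v b k g c p y m : α) : α :=
  (u ⊓ tT (tP u v c p) b k g y m) ⊔ tR u v b k g c p y m

/-- The new `v`. -/
def tV (u v b k g c p y m : α) : α :=
  (v ⊓ tT (tP u v c p) b k g y m) ⊔ tR u v b k g c p y m

end terms

section

variable {u v b k g c p y m : L}

theorem base_PQ {q : Pt} (hq : IsBase q) : q ∈ tP u v c p ↔ q ∈ tQ u v c p := by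
  simp only [tP, tQ, mem_sup_base hq, mem_inf]
  tauto

theorem base_TT {P Q : L} {q : Pt} (hq : IsBase q) (h : q ∈ P ↔ q ∈ Q) :
    q ∈ tT P b k g y m ↔ q ∈ tT Q b k g y m := by
  simp only [tT, mem_sup_base hq, mem_inf, h]

theorem base_U {q : Pt} (hq : IsBase q) :
    q ∈ tU u v b k g c p y m ↔ q ∈ tR u v b k g c p y m := by
  have h := base_TT (b := b) (k := k) (g := g) (y := y) (m := m) hq
    (base_PQ (u := u) (v := v) (c := c) (p := p) hq)
  simp only [tU, tR, mem_sup_base hq, mem_inf, h]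
  tauto

theorem base_V {q : Pt} (hq : IsBase q) :
    q ∈ tV u v b k g c p y m ↔ q ∈ tR u v b k g c p y m := by
  have h := base_TT (b := b) (k := k) (g := g) (y := y) (m := m) hq
    (base_PQ (u := u) (v := v) (c := c) (p := p) hq)
  simp only [tV, tR, mem_sup_base hq, mem_inf, h]
  tauto

theorem tR_le_U : tR u v b k g c p y m ≤ tU u v b k g c p y m := le_sup_right

theorem tR_le_V : tR u v b k g c p y m ≤ tV u v b k g c p y m := le_sup_right

theorem tR_le_w : tR u v b k g c p y m ≤ u ⊔ v :=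
  sup_le (le_trans inf_le_left le_sup_left)
    (sup_le (le_trans inf_le_left le_sup_left) (le_trans inf_le_left le_sup_right))

theorem tU_le_w : tU u v b k g c p y m ≤ u ⊔ v :=
  sup_le (le_trans inf_le_left le_sup_left) tR_le_w

theorem tV_le_w : tV u v b k g c p y m ≤ u ⊔ v :=
  sup_le (le_trans inf_le_left le_sup_right) tR_le_w

/-- If `w = u ∨ v` contains `p` and both `u` and `v` contain `b`, then the upper and the lower
version of `p` agree. -/
theorem tP_le_tQ (hw : Pt.p ∈ u ⊔ v) (hc : Pt.c ∈ u ⊔ v) (hu : Pt.b ∈ u) (hv : Pt.b ∈ v) :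
    tP u v c p ≤ tQ u v c p := by
  have inw : ∀ q, q ∈ u ⊔ v → q ∈ tQ u v c p := fun q h => mem_sup_left h
  have inu : ∀ q, q ∈ p → q ∈ c ⊔ u → q ∈ tQ u v c p := fun q h h' =>
    mem_sup_right (mem_sup_left (mem_inf.2 ⟨h, h'⟩))
  have inv : ∀ q, q ∈ p → q ∈ c ⊔ v → q ∈ tQ u v c p := fun q h h' =>
    mem_sup_right (mem_sup_right (mem_inf.2 ⟨h, h'⟩))
  refine sup_le le_sup_left (le_iff.2 fun q hq => ?_)
  obtain ⟨hp, hq⟩ := mem_inf.1 hq
  have base : ∀ {q : Pt}, IsBase q → q ∈ p → q ∈ c ⊔ (u ⊔ v) → q ∈ tQ u v c p := by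
    intro q hb hp hq
    rcases (mem_sup_base hb).1 hq with h | h
    · exact inu q hp (mem_sup_left h)
    · exact inw q h
  cases q with
  | xi n => exact inw _ ((u ⊔ v).2.p_xi hw n)
  | b => exact base IsBase.b hp hq
  | k => exact base IsBase.k hp hq
  | c => exact base IsBase.c hp hq
  | y => exact base IsBase.y hp hq
  | p => exact inw _ hw
  | m =>
    rcases m_sup hq with h | h | ⟨h1, _⟩
    · exact inu _ hp (mem_sup_left h)
    · exact inw _ h
    · rcases h1 with h1 | h1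
      · rcases (mem_sup_base IsBase.c).1 hc with h | h
        · refine inu _ hp ?_
          have hy : Pt.y ∈ c ⊔ u := mem_sup_left h1
          have hF := (c ⊔ u).2.by_xi (mem_sup_right hu) hy
          exact (c ⊔ u).2.py_m ((c ⊔ u).2.xic_p hF (mem_sup_right h)) hy
        · refine inv _ hp ?_
          have hy : Pt.y ∈ c ⊔ v := mem_sup_left h1
          have hF := (c ⊔ v).2.by_xi (mem_sup_right hv) hy
          exact (c ⊔ v).2.py_m ((c ⊔ v).2.xic_p hF (mem_sup_right h)) hy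
      · exact inw _ ((u ⊔ v).2.py_m hw h1)
  | g =>
    rcases g_sup hq with h | h | ⟨h1, h2⟩
    · exact inu _ hp (mem_sup_left h)
    · exact inw _ h
    · have hk : Pt.k ∈ c ∨ Pt.k ∈ u ∨ Pt.k ∈ v := h1.imp id (mem_sup_base IsBase.k).1
      have hym : (Pt.y ∈ c ∨ Pt.m ∈ c) ∨ (Pt.y ∈ u ∨ Pt.m ∈ u) ∨ (Pt.y ∈ v ∨ Pt.m ∈ v) := by
        rcases h2 with (h | h) | (h | h)
        · exact Or.inl (Or.inl h)
        · rcases (mem_sup_base IsBase.y).1 h with h | h
          · exact Or.inr (Or.inl (Or.inl h))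
          · exact Or.inr (Or.inr (Or.inl h))
        · exact Or.inl (Or.inr h)
        · rcases m_sup h with h | h | ⟨h | h, _⟩
          · exact Or.inr (Or.inl (Or.inr h))
          · exact Or.inr (Or.inr (Or.inr h))
          · exact Or.inr (Or.inl (Or.inl h))
          · exact Or.inr (Or.inr (Or.inl h))
      have comb : ∀ Z : L, Pt.k ∈ Z → (Pt.y ∈ Z ∨ Pt.m ∈ Z) → Pt.g ∈ Z := fun Z h h' =>
        h'.elim (Z.2.ky_g h) (Z.2.km_g h)
      have L1 : ∀ {X Y : L}, (Pt.y ∈ X ∨ Pt.m ∈ X) → (Pt.y ∈ X ⊔ Y ∨ Pt.m ∈ X ⊔ Y) :=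
        fun h => h.imp mem_sup_left mem_sup_left
      have L2 : ∀ {X Y : L}, (Pt.y ∈ Y ∨ Pt.m ∈ Y) → (Pt.y ∈ X ⊔ Y ∨ Pt.m ∈ X ⊔ Y) :=
        fun h => h.imp mem_sup_right mem_sup_right
      rcases hk with hk | hk | hk
      · rcases hym with h | h | h
        · exact inu _ hp (comb _ (mem_sup_left hk) (L1 h))
        · exact inu _ hp (comb _ (mem_sup_left hk) (L2 h))
        · exact inv _ hp (comb _ (mem_sup_left hk) (L2 h))
      · rcases hym with h | h | h
        · exact inu _ hp (comb _ (mem_sup_right hk) (L1 h))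
        · exact inu _ hp (comb _ (mem_sup_right hk) (L2 h))
        · exact inw _ (comb _ (mem_sup_left hk) (L2 h))
      · rcases hym with h | h | h
        · exact inv _ hp (comb _ (mem_sup_right hk) (L1 h))
        · exact inw _ (comb _ (mem_sup_right hk) (L1 h))
        · exact inv _ hp (comb _ (mem_sup_right hk) (L2 h))

/-- A point `xi n` in a join which does not contain all of them lies in one of the two sets. -/
theorem xi_sup_of_not_full {X Y : L} (h : ¬ ∀ n, Pt.xi n ∈ X ⊔ Y) {n : ℕ}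
    (hn : Pt.xi n ∈ X ⊔ Y) : Pt.xi n ∈ X ∨ Pt.xi n ∈ Y := by
  rcases hn with h1 | h1 | h1
  · exact Or.inl h1
  · exact Or.inr h1
  · exact absurd (fun n => Or.inr (Or.inr h1)) h

/-- The exceptional case does not occur. -/
theorem no_star (hc : Pt.c ∈ tR u v b k g c p y m)
    (hU : ¬ ∀ n, Pt.xi n ∈ tU u v b k g c p y m) (hV : ¬ ∀ n, Pt.xi n ∈ tV u v b k g c p y m)
    (h : ∀ n, Pt.xi n ∈ tU u v b k g c p y m ∨ Pt.xi n ∈ tV u v b k g c p y m) : False := by
  obtain ⟨i, hi⟩ := not_forall.1 hU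
  obtain ⟨j, hj⟩ := not_forall.1 hV
  have hi' : Pt.xi i ∈ tV u v b k g c p y m := (h i).resolve_left hi
  have hj' : Pt.xi j ∈ tU u v b k g c p y m := (h j).resolve_right hj
  have hiR : Pt.xi i ∉ tR u v b k g c p y m := fun h => hi (le_iff.1 tR_le_U _ h)
  have hjR : Pt.xi j ∉ tR u v b k g c p y m := fun h => hj (le_iff.1 tR_le_V _ h)
  have hi2 : Pt.xi i ∈ v ⊓ tT (tP u v c p) b k g y m := by
    rcases xi_sup_of_not_full hV hi' with h | h
    · exact h
    · exact absurd h hiR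
  have hj2 : Pt.xi j ∈ u ⊓ tT (tP u v c p) b k g y m := by
    rcases xi_sup_of_not_full hU hj' with h | h
    · exact h
    · exact absurd h hjR
  have hF : ∀ n, Pt.xi n ∈ u ⊔ v := fun n =>
    (h n).elim (fun h => le_iff.1 tU_le_w _ h) (fun h => le_iff.1 tV_le_w _ h)
  have hcw : Pt.c ∈ u ⊔ v := le_iff.1 tR_le_w _ hc
  have hPQ : tP u v c p ≤ tQ u v c p :=
    tP_le_tQ ((u ⊔ v).2.xic_p hF hcw) hcw (u.2.xi_b j hj2.1) (v.2.xi_b i hi2.1)
  have hTT : tT (tP u v c p) b k g y m ≤ tT (tQ u v c p) b k g y m :=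
    sup_le_sup_left (sup_le_sup_left (inf_le_inf_left g (sup_le_sup_left (inf_le_inf_left m
      (sup_le_sup_right hPQ y)) k)) k) b
  exact hiR (mem_sup_right (mem_sup_right (mem_inf.2 ⟨hi2.1, le_iff.1 hTT _ hi2.2⟩)))

end

/-- The splitting identity. -/
theorem split (x u v b k g c p y m : L) :
    x ⊓ (tU u v b k g c p y m ⊔ tV u v b k g c p y m) =
      (x ⊓ tU u v b k g c p y m) ⊔ (x ⊓ tV u v b k g c p y m) := by
  apply le_antisymm
  swap
  · exact sup_le (inf_le_inf_left x le_sup_left) (inf_le_inf_left x le_sup_right)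
  refine le_iff.2 fun q hq => ?_
  obtain ⟨hx, hq⟩ := mem_inf.1 hq
  have bU : ∀ {q : Pt}, IsBase q → q ∈ tV u v b k g c p y m → q ∈ tU u v b k g c p y m :=
    fun hq h => (base_U hq).2 ((base_V hq).1 h)
  have bV : ∀ {q : Pt}, IsBase q → q ∈ tU u v b k g c p y m → q ∈ tV u v b k g c p y m :=
    fun hq h => (base_V hq).2 ((base_U hq).1 h)
  have nos : Pt.c ∈ tU u v b k g c p y m →
      (¬ ∀ n, Pt.xi n ∈ tU u v b k g c p y m) → (¬ ∀ n, Pt.xi n ∈ tV u v b k g c p y m) →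
      (∀ n, Pt.xi n ∈ tU u v b k g c p y m ∨ Pt.xi n ∈ tV u v b k g c p y m) → False :=
    fun hc => no_star ((base_U IsBase.c).1 hc)
  generalize tU u v b k g c p y m = U at *
  generalize tV u v b k g c p y m = V at *
  -- every point of the join lies in `U` or in `V`
  have base : ∀ {q : Pt}, IsBase q → q ∈ U ∨ q ∈ V → q ∈ U ∧ q ∈ V := fun hb h =>
    h.elim (fun h => ⟨h, bV hb h⟩) (fun h => ⟨bU hb h, h⟩)
  have hg : Pt.g ∈ U ⊔ V → Pt.g ∈ U ∨ Pt.g ∈ V := by
    intro h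
    rcases g_sup h with h | h | ⟨h1, h2⟩
    · exact Or.inl h
    · exact Or.inr h
    · obtain ⟨k1, k2⟩ := base IsBase.k h1
      rcases h2 with h2 | (h2 | h2)
      · exact Or.inl (U.2.ky_g k1 (base IsBase.y h2).1)
      · exact Or.inl (U.2.km_g k1 h2)
      · exact Or.inr (V.2.km_g k2 h2)
  have hF : (Pt.b ∈ U ∨ Pt.b ∈ V) ∧ (Pt.g ∈ U ⊔ V ∨ (Pt.y ∈ U ∨ Pt.y ∈ V)) →
      (∀ n, Pt.xi n ∈ U) ∨ (∀ n, Pt.xi n ∈ V) := by
    rintro ⟨h1, h2⟩
    obtain ⟨b1, b2⟩ := base IsBase.b h1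
    rcases h2 with h2 | h2
    · exact (hg h2).imp (U.2.bg_xi b1) (V.2.bg_xi b2)
    · exact Or.inl (U.2.by_xi b1 (base IsBase.y h2).1)
  have hp : Pt.p ∈ U ⊔ V → Pt.p ∈ U ∨ Pt.p ∈ V := by
    intro h
    rcases p_sup h with h | h | ⟨h1, h2⟩
    · exact Or.inl h
    · exact Or.inr h
    · obtain ⟨c1, c2⟩ := base IsBase.c h1
      by_cases fU : ∀ n, Pt.xi n ∈ U
      · exact Or.inl (U.2.xic_p fU c1)
      by_cases fV : ∀ n, Pt.xi n ∈ V
      · exact Or.inr (V.2.xic_p fV c2)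
      rcases h2 with h2 | h2
      · exact (nos c1 fU fV h2).elim
      · exact ((hF h2).elim fU fV).elim
  have hm : Pt.m ∈ U ⊔ V → Pt.m ∈ U ∨ Pt.m ∈ V := by
    intro h
    rcases m_sup h with h | h | ⟨h1, h2⟩
    · exact Or.inl h
    · exact Or.inr h
    · obtain ⟨y1, y2⟩ := base IsBase.y h1
      exact (hp h2).imp (fun h => U.2.py_m h y1) (fun h => V.2.py_m h y2)
  have all : q ∈ U ∨ q ∈ V := by
    cases q with
    | xi n =>
      rcases xi_sup hq with h | h | h | h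
      · exact Or.inl h
      · exact Or.inr h
      · exact h n
      · exact (hF h).imp (fun h => h n) (fun h => h n)
    | b => exact (mem_sup_base IsBase.b).1 hq
    | k => exact (mem_sup_base IsBase.k).1 hq
    | g => exact hg hq
    | c => exact (mem_sup_base IsBase.c).1 hq
    | p => exact hp hq
    | y => exact (mem_sup_base IsBase.y).1 hq
    | m => exact hm hq
  exact all.elim (fun h => mem_sup_left (mem_inf.2 ⟨hx, h⟩))
    (fun h => mem_sup_right (mem_inf.2 ⟨hx, h⟩))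

end Pool.Agent.Helper75.SD
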