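import Pool.Agent.Helper75.SD.Split

/-!
# Special elements of the lattice and the value of the splitting terms at them
-/

namespace Pool.Agent.Helper75.SD

/-- The set with prescribed members. -/
def mkSet (A : ℕ → Prop) (b k g c p y m : Prop) : Set Pt := {q | match q with
  | Pt.xi n => A n
  | Pt.b => b
  | Pt.k => k
  | Pt.g => g
  | Pt.c => c
  | Pt.p => p
  | Pt.y => y
  | Pt.m => m}

theorem not_forall_eq (j : ℕ) : ¬ ∀ n : ℕ, n = j := fun h => by
  have := h (j + 1); omega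

theorem not_forall_ne (j : ℕ) : ¬ ∀ n : ℕ, n ≠ j := fun h => h j rfl

/-- `{b}` -/
def b0 : L := ⟨mkSet (fun _ => False) True False False False False False False, by
  constructor <;> simp [mkSet]⟩

/-- `{k}` -/
def k0 : L := ⟨mkSet (fun _ => False) False True False False False False False, by
  constructor <;> simp [mkSet]⟩

/-- `{k, g}` -/
def g0 : L := ⟨mkSet (fun _ => False) False True True False False False False, by
  constructor <;> simp [mkSet]⟩

/-- `{c}` -/
def c0 : L := ⟨mkSet (fun _ => False) False False False True False False False, by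
  constructor <;> simp [mkSet]⟩

/-- `{y}` -/
def y0 : L := ⟨mkSet (fun _ => False) False False False False False True False, by
  constructor <;> simp [mkSet]⟩

/-- `F ∪ {b}` -/
def i0 : L := ⟨mkSet (fun _ => True) True False False False False False False, by
  constructor <;> simp [mkSet]⟩

/-- `F ∪ {b, p}` -/
def p0 : L := ⟨mkSet (fun _ => True) True False False False True False False, by
  constructor <;> simp [mkSet]⟩

/-- `F ∪ {b, p, m}` -/
def m0 : L := ⟨mkSet (fun _ => True) True False False False True False True, by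
  constructor <;> simp [mkSet]⟩

/-- `{xi j, b}` -/
def u0 (j : ℕ) : L := ⟨mkSet (fun n => n = j) True False False False False False False, by
  constructor <;> simp [mkSet]⟩

/-- `{xi n : n ≠ j} ∪ {b}` -/
def v0 (j : ℕ) : L := ⟨mkSet (fun n => n ≠ j) True False False False False False False, by
  constructor <;> simp [mkSet]⟩

/-- `F ∪ {b, c, p}` -/
def cp0 : L := ⟨mkSet (fun _ => True) True False False True True False False, by
  constructor <;> simp [mkSet]⟩

/-- `{xi j, b, c}` -/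
def cu0 (j : ℕ) : L := ⟨mkSet (fun n => n = j) True False False True False False False, by
  constructor <;> simp [mkSet, not_forall_eq]⟩

/-- `{xi n : n ≠ j} ∪ {b, c}` -/
def cv0 (j : ℕ) : L := ⟨mkSet (fun n => n ≠ j) True False False True False False False, by
  constructor <;> simp [mkSet]⟩

/-- `F ∪ {b, p, y, m}` -/
def py0 : L := ⟨mkSet (fun _ => True) True False False False True True True, by
  constructor <;> simp [mkSet]⟩

/-- `F ∪ {b, y}` -/
def iy0 : L := ⟨mkSet (fun _ => True) True False False False False True False, by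
  constructor <;> simp [mkSet]⟩

/-- `F ∪ {b, k, g, p, m}` -/
def km0 : L := ⟨mkSet (fun _ => True) True True True False True False True, by
  constructor <;> simp [mkSet]⟩

/-- `F ∪ {b, k}` -/
def ki0 : L := ⟨mkSet (fun _ => True) True True False False False False False, by
  constructor <;> simp [mkSet]⟩

/-- `F ∪ {b, k, g}` -/
def bg0 : L := ⟨mkSet (fun _ => True) True True True False False False False, by
  constructor <;> simp [mkSet]⟩

/-- `{b, k}` -/
def bk0 : L := ⟨mkSet (fun _ => False) True True False False False False False, by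
  constructor <;> simp [mkSet]⟩

theorem mem_b0 (q : Pt) : q ∈ b0 ↔ q ∈ mkSet (fun _ => False) True False False False False False False := Iff.rfl
theorem mem_k0 (q : Pt) : q ∈ k0 ↔ q ∈ mkSet (fun _ => False) False True False False False False False := Iff.rfl
theorem mem_g0 (q : Pt) : q ∈ g0 ↔ q ∈ mkSet (fun _ => False) False True True False False False False := Iff.rfl
theorem mem_c0 (q : Pt) : q ∈ c0 ↔ q ∈ mkSet (fun _ => False) False False False True False False False := Iff.rfl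
theorem mem_y0 (q : Pt) : q ∈ y0 ↔ q ∈ mkSet (fun _ => False) False False False False False True False := Iff.rfl
theorem mem_i0 (q : Pt) : q ∈ i0 ↔ q ∈ mkSet (fun _ => True) True False False False False False False := Iff.rfl
theorem mem_p0 (q : Pt) : q ∈ p0 ↔ q ∈ mkSet (fun _ => True) True False False False True False False := Iff.rfl
theorem mem_m0 (q : Pt) : q ∈ m0 ↔ q ∈ mkSet (fun _ => True) True False False False True False True := Iff.rfl
theorem mem_u0 (j : ℕ) (q : Pt) : q ∈ u0 j ↔ q ∈ mkSet (fun n => n = j) True False False False False False False := Iff.rfl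
theorem mem_v0 (j : ℕ) (q : Pt) : q ∈ v0 j ↔ q ∈ mkSet (fun n => n ≠ j) True False False False False False False := Iff.rfl
theorem mem_cp0 (q : Pt) : q ∈ cp0 ↔ q ∈ mkSet (fun _ => True) True False False True True False False := Iff.rfl
theorem mem_cu0 (j : ℕ) (q : Pt) : q ∈ cu0 j ↔ q ∈ mkSet (fun n => n = j) True False False True False False False := Iff.rfl
theorem mem_cv0 (j : ℕ) (q : Pt) : q ∈ cv0 j ↔ q ∈ mkSet (fun n => n ≠ j) True False False True False False False := Iff.rfl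
theorem mem_py0 (q : Pt) : q ∈ py0 ↔ q ∈ mkSet (fun _ => True) True False False False True True True := Iff.rfl
theorem mem_iy0 (q : Pt) : q ∈ iy0 ↔ q ∈ mkSet (fun _ => True) True False False False False True False := Iff.rfl
theorem mem_km0 (q : Pt) : q ∈ km0 ↔ q ∈ mkSet (fun _ => True) True True True False True False True := Iff.rfl
theorem mem_ki0 (q : Pt) : q ∈ ki0 ↔ q ∈ mkSet (fun _ => True) True True False False False False False := Iff.rfl
theorem mem_bg0 (q : Pt) : q ∈ bg0 ↔ q ∈ mkSet (fun _ => True) True True True False False False False := Iff.rfl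
theorem mem_bk0 (q : Pt) : q ∈ bk0 ↔ q ∈ mkSet (fun _ => False) True True False False False False False := Iff.rfl

section mem

variable {A : ℕ → Prop} {b k g c p y m : Prop}

@[simp] theorem mk_xi {n : ℕ} : Pt.xi n ∈ mkSet A b k g c p y m ↔ A n := Iff.rfl
@[simp] theorem mk_b : Pt.b ∈ mkSet A b k g c p y m ↔ b := Iff.rfl
@[simp] theorem mk_k : Pt.k ∈ mkSet A b k g c p y m ↔ k := Iff.rfl
@[simp] theorem mk_g : Pt.g ∈ mkSet A b k g c p y m ↔ g := Iff.rfl
@[simp] theorem mk_c : Pt.c ∈ mkSet A b k g c p y m ↔ c := Iff.rfl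
@[simp] theorem mk_p : Pt.p ∈ mkSet A b k g c p y m ↔ p := Iff.rfl
@[simp] theorem mk_y : Pt.y ∈ mkSet A b k g c p y m ↔ y := Iff.rfl
@[simp] theorem mk_m : Pt.m ∈ mkSet A b k g c p y m ↔ m := Iff.rfl

end mem

theorem uv_sup (j : ℕ) : u0 j ⊔ v0 j = i0 := by
  apply L.ext; intro q
  cases q <;> simp [mem_u0, mem_v0, mem_i0, mem_sup_b, mem_sup_k, mem_sup_c, mem_sup_y, mem_sup_g,
    mem_sup_xi, mem_sup_p, mem_sup_m, gJ, fJ, pJ, mJ, em]

theorem ci : c0 ⊔ i0 = cp0 := by
  apply L.ext; intro q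
  cases q <;> simp [mem_c0, mem_i0, mem_cp0, mem_sup_b, mem_sup_k, mem_sup_c, mem_sup_y,
    mem_sup_g, mem_sup_xi, mem_sup_p, mem_sup_m, gJ, fJ, pJ, mJ]

theorem cu (j : ℕ) : c0 ⊔ u0 j = cu0 j := by
  apply L.ext; intro q
  cases q <;> simp [mem_c0, mem_u0, mem_cu0, mem_sup_b, mem_sup_k, mem_sup_c, mem_sup_y,
    mem_sup_g, mem_sup_xi, mem_sup_p, mem_sup_m, gJ, fJ, pJ, mJ, not_forall_eq]

theorem cv (j : ℕ) : c0 ⊔ v0 j = cv0 j := by
  apply L.ext; intro q
  cases q <;> simp [mem_c0, mem_v0, mem_cv0, mem_sup_b, mem_sup_k, mem_sup_c, mem_sup_y,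
    mem_sup_g, mem_sup_xi, mem_sup_p, mem_sup_m, gJ, fJ, pJ, mJ]

theorem py : p0 ⊔ y0 = py0 := by
  apply L.ext; intro q
  cases q <;> simp [mem_p0, mem_y0, mem_py0, mem_sup_b, mem_sup_k, mem_sup_c, mem_sup_y,
    mem_sup_g, mem_sup_xi, mem_sup_p, mem_sup_m, gJ, fJ, pJ, mJ]

theorem iy : i0 ⊔ y0 = iy0 := by
  apply L.ext; intro q
  cases q <;> simp [mem_i0, mem_y0, mem_iy0, mem_sup_b, mem_sup_k, mem_sup_c, mem_sup_y,
    mem_sup_g, mem_sup_xi, mem_sup_p, mem_sup_m, gJ, fJ, pJ, mJ]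

theorem km : k0 ⊔ m0 = km0 := by
  apply L.ext; intro q
  cases q <;> simp [mem_k0, mem_m0, mem_km0, mem_sup_b, mem_sup_k, mem_sup_c, mem_sup_y,
    mem_sup_g, mem_sup_xi, mem_sup_p, mem_sup_m, gJ, fJ, pJ, mJ]

theorem ki : k0 ⊔ i0 = ki0 := by
  apply L.ext; intro q
  cases q <;> simp [mem_k0, mem_i0, mem_ki0, mem_sup_b, mem_sup_k, mem_sup_c, mem_sup_y,
    mem_sup_g, mem_sup_xi, mem_sup_p, mem_sup_m, gJ, fJ, pJ, mJ]

theorem bg : b0 ⊔ g0 = bg0 := by
  apply L.ext; intro q
  cases q <;> simp [mem_b0, mem_g0, mem_bg0, mem_sup_b, mem_sup_k, mem_sup_c, mem_sup_y,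
    mem_sup_g, mem_sup_xi, mem_sup_p, mem_sup_m, gJ, fJ, pJ, mJ]

theorem bk : b0 ⊔ k0 = bk0 := by
  apply L.ext; intro q
  cases q <;> simp [mem_b0, mem_k0, mem_bk0, mem_sup_b, mem_sup_k, mem_sup_c, mem_sup_y,
    mem_sup_g, mem_sup_xi, mem_sup_p, mem_sup_m, gJ, fJ, pJ, mJ]

theorem p_cp : p0 ⊓ cp0 = p0 := by
  apply L.ext; intro q; cases q <;> simp [mem_p0, mem_cp0, mem_inf]

theorem p_cu (j : ℕ) : p0 ⊓ cu0 j = u0 j := by
  apply L.ext; intro q; cases q <;> simp [mem_p0, mem_cu0, mem_u0, mem_inf]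

theorem p_cv (j : ℕ) : p0 ⊓ cv0 j = v0 j := by
  apply L.ext; intro q; cases q <;> simp [mem_p0, mem_cv0, mem_v0, mem_inf]

theorem m_py : m0 ⊓ py0 = m0 := by
  apply L.ext; intro q; cases q <;> simp [mem_m0, mem_py0, mem_inf]

theorem m_iy : m0 ⊓ iy0 = i0 := by
  apply L.ext; intro q; cases q <;> simp [mem_m0, mem_iy0, mem_i0, mem_inf]

theorem g_km : g0 ⊓ km0 = g0 := by
  apply L.ext; intro q; cases q <;> simp [mem_g0, mem_km0, mem_inf]

theorem g_ki : g0 ⊓ ki0 = k0 := by
  apply L.ext; intro q; cases q <;> simp [mem_g0, mem_ki0, mem_k0, mem_inf]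

theorem u_bg (j : ℕ) : u0 j ⊓ bg0 = u0 j := by
  apply L.ext; intro q; cases q <;> simp [mem_u0, mem_bg0, mem_inf]

theorem v_bg (j : ℕ) : v0 j ⊓ bg0 = v0 j := by
  apply L.ext; intro q; cases q <;> simp [mem_v0, mem_bg0, mem_inf]

theorem u_bk (j : ℕ) : u0 j ⊓ bk0 = b0 := by
  apply L.ext; intro q; cases q <;> simp [mem_u0, mem_bk0, mem_b0, mem_inf]

theorem v_bk (j : ℕ) : v0 j ⊓ bk0 = b0 := by
  apply L.ext; intro q; cases q <;> simp [mem_v0, mem_bk0, mem_b0, mem_inf]

theorem uv_inf (j : ℕ) : u0 j ⊓ v0 j = b0 := by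
  apply L.ext; intro q; cases q <;> simp [mem_u0, mem_v0, mem_b0, mem_inf]

theorem uu_inf {i j : ℕ} (h : i ≠ j) : u0 i ⊓ u0 j = b0 := by
  apply L.ext; intro q
  cases q <;> simp [mem_u0, mem_b0, mem_inf]
  rintro rfl; exact h

theorem i_le_p : i0 ≤ p0 := by
  refine le_iff.2 fun q => ?_; cases q <;> simp [mem_i0, mem_p0]

theorem k_le_g : k0 ≤ g0 := by
  refine le_iff.2 fun q => ?_; cases q <;> simp [mem_k0, mem_g0]

theorem b_le_u (j : ℕ) : b0 ≤ u0 j := by
  refine le_iff.2 fun q => ?_; cases q <;> simp [mem_b0, mem_u0]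

theorem b_le_v (j : ℕ) : b0 ≤ v0 j := by
  refine le_iff.2 fun q => ?_; cases q <;> simp [mem_b0, mem_v0]

theorem v_le_i (j : ℕ) : v0 j ≤ i0 := by
  refine le_iff.2 fun q => ?_; cases q <;> simp [mem_v0, mem_i0]

theorem p_not_le_i : ¬ p0 ≤ i0 := fun h => by
  have := le_iff.1 h Pt.p (by simp [mem_p0])
  simp [mem_i0] at this

theorem tP_val (j : ℕ) : tP (u0 j) (v0 j) c0 p0 = p0 := by
  rw [tP, uv_sup, ci, p_cp, sup_eq_right.2 i_le_p]

theorem tQ_val (j : ℕ) : tQ (u0 j) (v0 j) c0 p0 = i0 := by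
  rw [tQ, uv_sup, cu, cv, p_cu, p_cv, uv_sup, sup_idem]

theorem tT_P : tT p0 b0 k0 g0 y0 m0 = bg0 := by
  rw [tT, py, m_py, km, g_km, sup_eq_right.2 k_le_g, bg]

theorem tT_Q : tT i0 b0 k0 g0 y0 m0 = bk0 := by
  rw [tT, iy, m_iy, ki, g_ki, sup_idem, bk]

theorem tR_val (j : ℕ) : tR (u0 j) (v0 j) b0 k0 g0 c0 p0 y0 m0 = b0 := by
  rw [tR, tQ_val, tT_Q, u_bk, v_bk, uv_inf, sup_idem, sup_idem]

theorem tU_val (j : ℕ) : tU (u0 j) (v0 j) b0 k0 g0 c0 p0 y0 m0 = u0 j := by
  rw [tU, tP_val, tT_P, u_bg, tR_val, sup_eq_left.2 (b_le_u j)]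

theorem tV_val (j : ℕ) : tV (u0 j) (v0 j) b0 k0 g0 c0 p0 y0 m0 = v0 j := by
  rw [tV, tP_val, tT_P, v_bg, tR_val, sup_eq_left.2 (b_le_v j)]

/-- `p` is not below the join of `c` and a proper part of `F`. -/
theorem p_inf_cv (j : ℕ) : p0 ⊓ (c0 ⊔ v0 j) = v0 j := by rw [cv, p_cv]

theorem p_le_ci : p0 ≤ c0 ⊔ i0 := by rw [ci]; exact inf_eq_left.1 p_cp

end Pool.Agent.Helper75.SD
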